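import Pool.Agent.Helper68.LM.St

set_option autoImplicit false

open MeasureTheory Set Filter Topology
open scoped ENNReal RealInnerProductSpace FourierTransform

namespace Pool.Agent.Helper42.LM
open Pool.Agent.Helper68.LM

/-- integral of a power on `(0,a]` -/
theorem lint_Ioc (r a : ℝ) (hr : 0 < r) (ha : 0 ≤ a) :
    ∫⁻ lam in Ioc (0 : ℝ) a, ENNReal.ofReal (lam ^ (r - 1)) = ENNReal.ofReal (a ^ r / r) := by
  have hi : IntervalIntegrable (fun x : ℝ => x ^ (r - 1)) volume 0 a :=
    intervalIntegral.intervalIntegrable_rpow' (by linarith)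
  have hi2 : IntegrableOn (fun x : ℝ => x ^ (r - 1)) (Ioc 0 a) volume :=
    (intervalIntegrable_iff_integrableOn_Ioc_of_le ha).1 hi
  rw [← ofReal_integral_eq_lintegral_ofReal hi2]
  · rw [← intervalIntegral.integral_of_le ha, integral_rpow (Or.inl (by linarith))]
    congr 1
    rw [sub_add_cancel, Real.zero_rpow hr.ne', sub_zero]
  · refine (ae_restrict_iff' measurableSet_Ioc).2 (Eventually.of_forall fun x hx => ?_)
    exact Real.rpow_nonneg hx.1.le _

/-- the same on the open ray, with an indicator -/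
theorem lint_ind (r a : ℝ) (hr : 0 < r) (ha : 0 ≤ a) :
    ∫⁻ lam in Ioi (0 : ℝ), ENNReal.ofReal (lam ^ (r - 1)) * (if lam < a then 1 else 0) =
      ENNReal.ofReal (a ^ r / r) := by
  rw [← lint_Ioc r a hr ha]
  have h1 : ∫⁻ lam in Ioc (0 : ℝ) a, ENNReal.ofReal (lam ^ (r - 1)) =
      ∫⁻ lam in Ioo (0 : ℝ) a, ENNReal.ofReal (lam ^ (r - 1)) := by
    rw [Measure.restrict_congr_set Ioo_ae_eq_Ioc]
  rw [h1]
  have h2 : Ioo (0 : ℝ) a = Iio a ∩ Ioi 0 := by
    ext x; simp [and_comm]
  rw [h2, ← Measure.restrict_restrict measurableSet_Iio, ← lintegral_indicator measurableSet_Iio]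
  refine lintegral_congr fun x => ?_
  by_cases hx : x < a
  · rw [indicator_of_mem (by exact hx)]; simp [hx]
  · rw [indicator_of_notMem (by exact hx)]; simp [hx]

/-- layer cake for one number -/
theorem lc_point (p : ℝ) (hp : 0 < p) (y : ℝ≥0∞) :
    y ^ p = ∫⁻ lam in Ioi (0 : ℝ), ENNReal.ofReal (p * lam ^ (p - 1)) *
      (if ENNReal.ofReal lam < y then 1 else 0) := by
  have key : ∀ a : ℝ, 0 ≤ a → ∫⁻ lam in Ioi (0 : ℝ), ENNReal.ofReal (p * lam ^ (p - 1)) *
      (if lam < a then 1 else 0) = ENNReal.ofReal (a ^ p) := by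
    intro a ha
    have : ∀ lam : ℝ, ENNReal.ofReal (p * lam ^ (p - 1)) * (if lam < a then (1 : ℝ≥0∞) else 0) =
        ENNReal.ofReal p * (ENNReal.ofReal (lam ^ (p - 1)) * (if lam < a then 1 else 0)) := by
      intro lam
      rw [ENNReal.ofReal_mul hp.le, mul_assoc]
    simp_rw [this]
    rw [lintegral_const_mul' _ _ ENNReal.ofReal_ne_top, lint_ind p a hp ha,
      ← ENNReal.ofReal_mul hp.le]
    congr 1
    field_simp
  by_cases hy : y = ⊤
  · subst hy
    rw [ENNReal.top_rpow_of_pos hp]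
    symm
    rw [eq_top_iff]
    refine ENNReal.le_of_forall_nnreal_lt fun r _ => ?_
    have h0 : (0 : ℝ) ≤ (r : ℝ) ^ (1 / p) := Real.rpow_nonneg (NNReal.coe_nonneg r) _
    have h1 := key ((r : ℝ) ^ (1 / p)) h0
    have h2 : ((r : ℝ) ^ (1 / p)) ^ p = r := by
      rw [← Real.rpow_mul (NNReal.coe_nonneg r), one_div_mul_cancel hp.ne', Real.rpow_one]
    rw [h2, ENNReal.ofReal_coe_nnreal] at h1
    rw [← h1]
    refine lintegral_mono fun lam => ?_
    rw [if_pos ENNReal.ofReal_lt_top]
    split_ifs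
    · exact le_rfl
    · rw [mul_zero]; exact zero_le
  · have h1 := key y.toReal ENNReal.toReal_nonneg
    have h2 : ENNReal.ofReal (y.toReal ^ p) = y ^ p := by
      rw [← ENNReal.ofReal_rpow_of_nonneg ENNReal.toReal_nonneg hp.le, ENNReal.ofReal_toReal hy]
    rw [← h2, ← h1]
    refine setLIntegral_congr_fun measurableSet_Ioi fun lam hlam => ?_
    have h3 : (lam < y.toReal) ↔ ENNReal.ofReal lam < y := by
      rw [ENNReal.ofReal_lt_iff_lt_toReal (le_of_lt hlam) hy]
    simp only [h3]

theorem hLC : StLC := by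
  intro p hp F hF
  have hms : MeasurableSet {q : Pl × ℝ | ENNReal.ofReal q.2 < F q.1} :=
    measurableSet_lt (ENNReal.measurable_ofReal.comp measurable_snd) (hF.comp measurable_fst)
  have h1 : ∫⁻ x, F x ^ p = ∫⁻ x, ∫⁻ lam in Ioi (0 : ℝ), ENNReal.ofReal (p * lam ^ (p - 1)) *
      (if ENNReal.ofReal lam < F x then 1 else 0) :=
    lintegral_congr fun x => lc_point p hp (F x)
  rw [h1, lintegral_lintegral_swap]
  · refine lintegral_congr fun lam => ?_
    rw [lintegral_const_mul' _ _ ENNReal.ofReal_ne_top]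
    congr 1
    have : (fun x : Pl => (if ENNReal.ofReal lam < F x then (1 : ℝ≥0∞) else 0)) =
        indicator {x | ENNReal.ofReal lam < F x} (fun _ => 1) := by
      ext x
      by_cases h : ENNReal.ofReal lam < F x
      · simp [h]
      · simp [h]
    rw [this, lintegral_indicator (measurableSet_lt measurable_const hF)]
    simp
  · refine (Measurable.mul ?_ ?_).aemeasurable
    · exact ((measurable_snd.pow_const (p - 1)).const_mul p).ennreal_ofReal
    · exact Measurable.ite hms measurable_const measurable_const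

end Pool.Agent.Helper42.LM
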