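import Pool.Agent.Helper42.LM.M_LC

set_option autoImplicit false

open MeasureTheory Set Filter Topology
open scoped ENNReal RealInnerProductSpace FourierTransform

namespace Pool.Agent.Helper42.LM
open Pool.Agent.Helper68.LM

/-- Tonelli for the distribution function with weight `G` -/
theorem swap_lt (r s : ℝ) (hr : 0 < r) (hs : 0 < s) (g : Pl → ℝ) (G : Pl → ℝ≥0∞)
    (hg : Measurable g) (hg0 : ∀ x, 0 ≤ g x) (hG : Measurable G) :
    ∫⁻ lam in Ioi (0 : ℝ), ENNReal.ofReal (lam ^ (r - 1)) * ∫⁻ x in {x | s * lam < g x}, G x =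
      ∫⁻ x, ENNReal.ofReal ((g x / s) ^ r / r) * G x := by
  have hms : MeasurableSet {q : ℝ × Pl | s * q.1 < g q.2} :=
    measurableSet_lt (measurable_fst.const_mul s) (hg.comp measurable_snd)
  have h1 : ∀ lam : ℝ, ENNReal.ofReal (lam ^ (r - 1)) * ∫⁻ x in {x | s * lam < g x}, G x =
      ∫⁻ x, ENNReal.ofReal (lam ^ (r - 1)) * ((if s * lam < g x then 1 else 0) * G x) := by
    intro lam
    rw [lintegral_const_mul' _ _ ENNReal.ofReal_ne_top]
    congr 1
    rw [← lintegral_indicator (measurableSet_lt measurable_const hg)]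
    refine lintegral_congr fun x => ?_
    by_cases h : s * lam < g x
    · rw [indicator_of_mem (by exact h)]; simp [h]
    · rw [indicator_of_notMem (by exact h)]; simp [h]
  simp_rw [h1]
  rw [lintegral_lintegral_swap]
  · refine lintegral_congr fun x => ?_
    have h2 : ∀ lam : ℝ, ENNReal.ofReal (lam ^ (r - 1)) * ((if s * lam < g x then 1 else 0) * G x) =
        (ENNReal.ofReal (lam ^ (r - 1)) * (if lam < g x / s then 1 else 0)) * G x := by
      intro lam
      rw [mul_assoc]
      congr 2
      have : (s * lam < g x) ↔ lam < g x / s := by rw [lt_div_iff₀ hs, mul_comm]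
      simp only [this]
    simp_rw [h2]
    rw [lintegral_mul_const'' _ ?_, lint_ind r (g x / s) hr (div_nonneg (hg0 x) hs.le)]
    refine (Measurable.mul ?_ ?_).aemeasurable
    · exact (measurable_id.pow_const (r - 1)).ennreal_ofReal
    · exact Measurable.ite (measurableSet_lt measurable_id measurable_const) measurable_const
        measurable_const
  · refine (Measurable.mul ?_ (Measurable.mul ?_ ?_)).aemeasurable
    · exact (measurable_fst.pow_const (r - 1)).ennreal_ofReal
    · exact Measurable.ite hms measurable_const measurable_const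
    · exact hG.comp measurable_snd

/-- the Marcinkiewicz integral with weight `g^m`, `m` a natural number below `p` -/
theorem mz_term (p s K : ℝ) (m : ℕ) (hp : (m : ℝ) < p) (hm : 0 < m) (hs : 0 < s) (hK : 0 ≤ K)
    (g : Pl → ℝ) (hg : Measurable g) (hg0 : ∀ x, 0 ≤ g x) :
    ∫⁻ lam in Ioi (0 : ℝ), ENNReal.ofReal (p * lam ^ (p - 1)) * (ENNReal.ofReal (K / lam ^ m) *
      ∫⁻ x in {x | s * lam < g x}, ENNReal.ofReal (g x) ^ m) =
      ENNReal.ofReal (p / (p - m) * (K * s ^ ((m : ℝ) - p))) * ∫⁻ x, ENNReal.ofReal (g x) ^ p := by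
  have hp0 : 0 < p := lt_of_le_of_lt (Nat.cast_nonneg m) hp
  have hpm : 0 < p - m := sub_pos.2 hp
  have h1 : ∫⁻ lam in Ioi (0 : ℝ), ENNReal.ofReal (p * lam ^ (p - 1)) * (ENNReal.ofReal (K / lam ^ m) *
      ∫⁻ x in {x | s * lam < g x}, ENNReal.ofReal (g x) ^ m) =
      ∫⁻ lam in Ioi (0 : ℝ), ENNReal.ofReal (p * K) * (ENNReal.ofReal (lam ^ (p - m - 1)) *
      ∫⁻ x in {x | s * lam < g x}, ENNReal.ofReal (g x) ^ m) := by
    refine setLIntegral_congr_fun measurableSet_Ioi fun lam hlam => ?_
    have hl : (0 : ℝ) < lam := hlam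
    rw [← mul_assoc, ← mul_assoc]
    congr 1
    rw [← ENNReal.ofReal_mul (by positivity), ← ENNReal.ofReal_mul (by positivity)]
    congr 1
    have : lam ^ (p - m - 1) = lam ^ (p - 1) / lam ^ m := by
      rw [show p - m - 1 = (p - 1) - m by ring, Real.rpow_sub hl, Real.rpow_natCast]
    rw [this]
    ring
  rw [h1, lintegral_const_mul' _ _ ENNReal.ofReal_ne_top,
    swap_lt (p - m) s hpm hs g _ hg hg0 (hg.ennreal_ofReal.pow_const m)]
  rw [← lintegral_const_mul' _ _ ENNReal.ofReal_ne_top, ← lintegral_const_mul' _ _ ENNReal.ofReal_ne_top]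
  refine lintegral_congr fun x => ?_
  rw [ENNReal.ofReal_rpow_of_nonneg (hg0 x) hp0.le, ← ENNReal.ofReal_pow (hg0 x),
    ← ENNReal.ofReal_mul (by have := hg0 x; positivity), ← ENNReal.ofReal_mul (by positivity),
    ← ENNReal.ofReal_mul (by positivity)]
  congr 1
  rcases (hg0 x).eq_or_lt with h | h
  · rw [← h, zero_pow (by omega), Real.zero_rpow hp0.ne']; ring
  · rw [Real.div_rpow h.le hs.le, show (m : ℝ) - p = -(p - m) by ring, Real.rpow_neg hs.le]
    have e : g x ^ p = g x ^ (p - m) * g x ^ m := by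
      rw [← Real.rpow_natCast (g x) m, ← Real.rpow_add h]; congr 1; ring
    rw [e]
    field_simp

theorem hMZ1 (hLC : StLC) : StMZ1 := by
  intro p hp
  refine ⟨p / (p - 1), by have : 0 < p - 1 := by linarith
                          positivity, ?_⟩
  intro g F s K hg hg0 hF hs hK hv
  rw [hLC p (by linarith) F hF]
  have h := mz_term p s K 1 (by simpa using hp) one_pos hs hK g hg hg0
  simp only [Nat.cast_one, pow_one] at h
  rw [← h]
  refine setLIntegral_mono' measurableSet_Ioi fun lam hlam => ?_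
  exact mul_le_mul_right (hv lam hlam) _

end Pool.Agent.Helper42.LM
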