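import Pool.Agent.Helper42.LM.M_MZ1

set_option autoImplicit false

open MeasureTheory Set Filter Topology
open scoped ENNReal RealInnerProductSpace FourierTransform

namespace Pool.Agent.Helper42.LM
open Pool.Agent.Helper68.LM

theorem hMZ2 (hLC : StLC) : StMZ2 := by
  intro p hp
  refine ⟨p / (p - 2), by have : 0 < p - 2 := by linarith
                          positivity, ?_⟩
  intro g F s K hg hg0 hF hs hK hv
  rw [hLC p (by linarith) F hF]
  have h := mz_term p s K 2 (by simpa using hp) two_pos hs hK g hg hg0
  simp only [Nat.cast_ofNat] at h
  rw [← h]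
  refine setLIntegral_mono' measurableSet_Ioi fun lam hlam => ?_
  exact mul_le_mul_right (hv lam hlam) _

end Pool.Agent.Helper42.LM
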