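import Pool.Agent.Helper42.LM.M_MZ1

set_option autoImplicit false

open MeasureTheory Set Filter Topology
open scoped ENNReal RealInnerProductSpace FourierTransform

namespace Pool.Agent.Helper42.LM
open Pool.Agent.Helper68.LM

/-- integral of a power on a ray -/
theorem lint_ray (r a : ℝ) (hr : 0 < r) (ha : 0 < a) :
    ∫⁻ lam in Ioi a, ENNReal.ofReal (lam ^ (-r - 1)) = ENNReal.ofReal (a ^ (-r) / r) := by
  have hi : IntegrableOn (fun x : ℝ => x ^ (-r - 1)) (Ioi a) volume :=
    integrableOn_Ioi_rpow_of_lt (by linarith) ha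
  rw [← ofReal_integral_eq_lintegral_ofReal hi]
  · rw [integral_Ioi_rpow_of_lt (by linarith) ha]
    congr 1
    rw [sub_add_cancel, neg_div_neg_eq]
  · refine (ae_restrict_iff' measurableSet_Ioi).2 (Eventually.of_forall fun x hx => ?_)
    exact Real.rpow_nonneg (ha.le.trans (le_of_lt hx)) _

/-- the inner integral of the second term -/
theorem inner3 (p s g : ℝ) (hp1 : 1 < p) (hp2 : p < 2) (hs : 0 < s) (hg : 0 ≤ g) :
    ∫⁻ lam in Ioi (0 : ℝ), ENNReal.ofReal (lam ^ (p - 3)) * ENNReal.ofReal (min g (s * lam)) ^ 2 ≤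
      ENNReal.ofReal ((1 / p + 1 / (2 - p)) * s ^ (2 - p)) * ENNReal.ofReal g ^ p := by
  have hp0 : 0 < p := by linarith
  have h2p : 0 < 2 - p := by linarith
  rcases hg.eq_or_lt with h0 | h0
  · have : ∫⁻ lam in Ioi (0 : ℝ), ENNReal.ofReal (lam ^ (p - 3)) *
        ENNReal.ofReal (min g (s * lam)) ^ 2 = ∫⁻ _lam in Ioi (0 : ℝ), 0 := by
      refine setLIntegral_congr_fun measurableSet_Ioi fun lam hlam => ?_
      have hl : (0 : ℝ) < lam := hlam
      rw [← h0, min_eq_left (by positivity)]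
      simp
    rw [this]; simp
  · have ha : 0 < g / s := div_pos h0 hs
    have hsplit : Ioi (0 : ℝ) = Ioc 0 (g / s) ∪ Ioi (g / s) := (Ioc_union_Ioi_eq_Ioi ha.le).symm
    rw [hsplit]
    refine (lintegral_union_le _ _ _).trans ?_
    have e1 : ∫⁻ lam in Ioc 0 (g / s), ENNReal.ofReal (lam ^ (p - 3)) *
        ENNReal.ofReal (min g (s * lam)) ^ 2 ≤ ENNReal.ofReal (1 / p * s ^ (2 - p) * g ^ p) := by
      have : ∫⁻ lam in Ioc 0 (g / s), ENNReal.ofReal (lam ^ (p - 3)) *
          ENNReal.ofReal (min g (s * lam)) ^ 2 ≤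
          ∫⁻ lam in Ioc 0 (g / s), ENNReal.ofReal (s ^ 2) * ENNReal.ofReal (lam ^ (p - 1)) := by
        refine setLIntegral_mono' measurableSet_Ioc fun lam hlam => ?_
        have hl : (0 : ℝ) < lam := hlam.1
        have hm : 0 ≤ min g (s * lam) := le_min h0.le (by positivity)
        rw [← ENNReal.ofReal_pow hm, ← ENNReal.ofReal_mul (by positivity),
          ← ENNReal.ofReal_mul (by positivity)]
        refine ENNReal.ofReal_le_ofReal ?_
        have e : lam ^ (p - 1) = lam ^ (p - 3) * lam ^ 2 := by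
          rw [← Real.rpow_natCast lam 2, ← Real.rpow_add hl]; congr 1; push_cast; ring
        rw [e]
        have : min g (s * lam) ^ 2 ≤ (s * lam) ^ 2 := pow_le_pow_left₀ hm (min_le_right _ _) 2
        calc lam ^ (p - 3) * min g (s * lam) ^ 2 ≤ lam ^ (p - 3) * (s * lam) ^ 2 :=
              mul_le_mul_of_nonneg_left this (by positivity)
          _ = s ^ 2 * (lam ^ (p - 3) * lam ^ 2) := by ring
      refine this.trans ?_
      rw [lintegral_const_mul' _ _ ENNReal.ofReal_ne_top, lint_Ioc p (g / s) hp0 ha.le,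
        ← ENNReal.ofReal_mul (by positivity)]
      refine ENNReal.ofReal_le_ofReal (le_of_eq ?_)
      rw [Real.div_rpow h0.le hs.le, Real.rpow_sub hs, Real.rpow_two]
      field_simp
    have e2 : ∫⁻ lam in Ioi (g / s), ENNReal.ofReal (lam ^ (p - 3)) *
        ENNReal.ofReal (min g (s * lam)) ^ 2 ≤ ENNReal.ofReal (1 / (2 - p) * s ^ (2 - p) * g ^ p) := by
      have : ∫⁻ lam in Ioi (g / s), ENNReal.ofReal (lam ^ (p - 3)) *
          ENNReal.ofReal (min g (s * lam)) ^ 2 ≤
          ∫⁻ lam in Ioi (g / s), ENNReal.ofReal (g ^ 2) * ENNReal.ofReal (lam ^ (-(2 - p) - 1)) := by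
        refine setLIntegral_mono' measurableSet_Ioi fun lam hlam => ?_
        have hl : (0 : ℝ) < lam := ha.trans hlam
        have hm : 0 ≤ min g (s * lam) := le_min h0.le (by positivity)
        rw [← ENNReal.ofReal_pow hm, ← ENNReal.ofReal_mul (by positivity),
          ← ENNReal.ofReal_mul (by positivity)]
        refine ENNReal.ofReal_le_ofReal ?_
        rw [show -(2 - p) - 1 = p - 3 by ring]
        have : min g (s * lam) ^ 2 ≤ g ^ 2 := pow_le_pow_left₀ hm (min_le_left _ _) 2
        calc lam ^ (p - 3) * min g (s * lam) ^ 2 ≤ lam ^ (p - 3) * g ^ 2 :=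
              mul_le_mul_of_nonneg_left this (by positivity)
          _ = g ^ 2 * lam ^ (p - 3) := by ring
      refine this.trans ?_
      rw [lintegral_const_mul' _ _ ENNReal.ofReal_ne_top, lint_ray (2 - p) (g / s) h2p ha,
        ← ENNReal.ofReal_mul (by positivity)]
      refine ENNReal.ofReal_le_ofReal (le_of_eq ?_)
      have e : g ^ p = g ^ 2 * g ^ (-(2 - p)) := by
        rw [← Real.rpow_two, ← Real.rpow_add h0]; congr 1; ring
      rw [e, Real.div_rpow h0.le hs.le, Real.rpow_neg hs.le]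
      field_simp
    refine (add_le_add e1 e2).trans ?_
    rw [ENNReal.ofReal_rpow_of_nonneg h0.le hp0.le, ← ENNReal.ofReal_mul (by positivity),
      ← ENNReal.ofReal_add (by positivity) (by positivity)]
    refine ENNReal.ofReal_le_ofReal (le_of_eq ?_)
    ring

theorem hMZ3 (hLC : StLC) : StMZ3 := by
  intro p hp hp2
  have hp0 : 0 < p := by linarith
  have h1p : 0 < p - 1 := by linarith
  have h2p : 0 < 2 - p := by linarith
  refine ⟨p / (p - 1) + p * (1 / p + 1 / (2 - p)), by positivity, ?_⟩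
  intro g F s K₁ K₂ hg hg0 hF hs hK₁ hK₂ hv
  rw [hLC p hp0 F hF]
  have h := mz_term p s K₁ 1 (by simpa using hp) one_pos hs hK₁ g hg hg0
  simp only [Nat.cast_one, pow_one] at h
  have step : ∫⁻ lam in Ioi (0 : ℝ), ENNReal.ofReal (p * lam ^ (p - 1)) *
      volume {x | ENNReal.ofReal lam < F x} ≤
      (∫⁻ lam in Ioi (0 : ℝ), ENNReal.ofReal (p * lam ^ (p - 1)) * (ENNReal.ofReal (K₁ / lam) *
        ∫⁻ x in {x | s * lam < g x}, ENNReal.ofReal (g x))) +
      ∫⁻ lam in Ioi (0 : ℝ), ENNReal.ofReal (p * K₂) * (ENNReal.ofReal (lam ^ (p - 3)) *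
        ∫⁻ x, ENNReal.ofReal (min (g x) (s * lam)) ^ 2) := by
    rw [← lintegral_add_right']
    · refine setLIntegral_mono' measurableSet_Ioi fun lam hlam => ?_
      have hl : (0 : ℝ) < lam := hlam
      refine (mul_le_mul_right (hv lam hlam) _).trans ?_
      rw [mul_add]
      refine add_le_add le_rfl (le_of_eq ?_)
      rw [← mul_assoc, ← mul_assoc]
      congr 1
      rw [← ENNReal.ofReal_mul (by positivity), ← ENNReal.ofReal_mul (by positivity)]
      congr 1
      have : lam ^ (p - 3) = lam ^ (p - 1) / lam ^ 2 := by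
        rw [show p - 3 = (p - 1) - (2 : ℕ) by push_cast; ring, Real.rpow_sub hl, Real.rpow_natCast]
      rw [this]
      ring
    · have m1 : Measurable (fun lam : ℝ => ENNReal.ofReal (lam ^ (p - 3))) :=
        (measurable_id.pow_const (p - 3)).ennreal_ofReal
      have m2 : Measurable (fun lam : ℝ => ∫⁻ x, ENNReal.ofReal (min (g x) (s * lam)) ^ 2) := by
        refine Measurable.lintegral_prod_right' (f := fun q : ℝ × Pl =>
          ENNReal.ofReal (min (g q.2) (s * q.1)) ^ 2) ?_
        exact ((hg.comp measurable_snd).min (measurable_fst.const_mul s)).ennreal_ofReal.pow_const 2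
      exact ((m1.mul m2).const_mul _).aemeasurable
  refine step.trans ?_
  rw [h, lintegral_const_mul' _ _ ENNReal.ofReal_ne_top]
  have hsw : ∫⁻ lam in Ioi (0 : ℝ), ENNReal.ofReal (lam ^ (p - 3)) *
      ∫⁻ x, ENNReal.ofReal (min (g x) (s * lam)) ^ 2 ≤
      ENNReal.ofReal ((1 / p + 1 / (2 - p)) * s ^ (2 - p)) * ∫⁻ x, ENNReal.ofReal (g x) ^ p := by
    have : ∀ lam : ℝ, ENNReal.ofReal (lam ^ (p - 3)) *
        ∫⁻ x, ENNReal.ofReal (min (g x) (s * lam)) ^ 2 =
        ∫⁻ x, ENNReal.ofReal (lam ^ (p - 3)) * ENNReal.ofReal (min (g x) (s * lam)) ^ 2 := by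
      intro lam
      rw [lintegral_const_mul' _ _ ENNReal.ofReal_ne_top]
    simp_rw [this]
    rw [lintegral_lintegral_swap]
    · rw [← lintegral_const_mul' _ _ ENNReal.ofReal_ne_top]
      exact lintegral_mono fun x => inner3 p s (g x) hp hp2 hs (hg0 x)
    · have m1 : Measurable (fun q : ℝ × Pl => ENNReal.ofReal (q.1 ^ (p - 3))) :=
        (measurable_fst.pow_const (p - 3)).ennreal_ofReal
      have m2 : Measurable (fun q : ℝ × Pl => ENNReal.ofReal (min (g q.2) (s * q.1)) ^ 2) :=
        ((hg.comp measurable_snd).min (measurable_fst.const_mul s)).ennreal_ofReal.pow_const 2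
      exact (m1.mul m2).aemeasurable
  refine (add_le_add le_rfl (mul_le_mul_right hsw _)).trans ?_
  rw [← mul_assoc (ENNReal.ofReal (p * K₂)), ← add_mul, ← ENNReal.ofReal_mul (by positivity),
    ← ENNReal.ofReal_add (by positivity) (by positivity)]
  refine mul_le_mul_left (ENNReal.ofReal_le_ofReal ?_) _
  have a1 : 0 ≤ K₁ * s ^ (1 - p) := by positivity
  have a2 : 0 ≤ K₂ * s ^ (2 - p) := by positivity
  have b1 : 0 ≤ p / (p - 1) := by positivity
  have b2 : 0 ≤ p * (1 / p + 1 / (2 - p)) := by positivity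
  nlinarith [mul_nonneg b1 a2, mul_nonneg b2 a1]

end Pool.Agent.Helper42.LM
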